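import Pool.Agent.helper81.CI.Spec
import Pool.Agent.helper63.CL.LGC

/-! # ci:LGI: log-concavity of the largest symmetric volume -/

set_option autoImplicit false

open MeasureTheory Set Filter Topology
open scoped ENNReal
open Pool.Agent.helper81.CW Pool.Agent.CL

namespace Pool.Agent.CI

theorem LGI_pair (hFAR : FAR_stmt) (n : ℕ) (C : Set (E n)) (z z' : E n) (ρ σ l : ℝ)
    (hC : IsCompact C) (hne : C.Nonempty) (hl0 : 0 < l) (hl1 : l < 1) :
    volume (AZ C z ρ ρ) ^ l * volume (AZ C z' σ σ) ^ (1 - l) ≤
      volume (AZ C (l • z + (1 - l) • z') (l * ρ + (1 - l) * σ) (l * ρ + (1 - l) * σ)) := by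
  have hcont := LGC_cont hFAR hC hne
  have hφ : MeasurePreserving (WithLp.toLp 2 : (Fin n → ℝ) → E n) volume volume :=
    PiLp.volume_preserving_toLp (Fin n)
  have hm : ∀ (w : E n) (r : ℝ), MeasurableSet (AZ C w r r) := fun w r =>
    ((isClosed_le hcont continuous_const).inter
      (isClosed_le (hcont.comp (by fun_prop : Continuous fun x : E n => (2 : ℝ) • w - x))
        continuous_const)).measurableSet
  set S : E n → ℝ → Set (Fin n → ℝ) := fun w r =>
    (WithLp.toLp 2 : (Fin n → ℝ) → E n) ⁻¹' (AZ C w r r) with hS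
  have mS : ∀ w r, MeasurableSet (S w r) := fun w r => hφ.measurable (hm w r)
  have vS : ∀ w r, volume (S w r) = volume (AZ C w r r) := fun w r =>
    hφ.measure_preimage (hm w r).nullMeasurableSet
  have hl1' : 0 < 1 - l := by linarith
  have key := Pool.Agent.helper96.prekopa_leindler (t := l) hl0 hl1 n
    (f := (S z ρ).indicator fun _ => 1) (g := (S z' σ).indicator fun _ => 1)
    (h := (S (l • z + (1 - l) • z') (l * ρ + (1 - l) * σ)).indicator fun _ => 1)
    (measurable_const.indicator (mS _ _)) (measurable_const.indicator (mS _ _))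
    (measurable_const.indicator (mS _ _)) (by
      intro x y
      by_cases hx : x ∈ S z ρ
      · by_cases hy : y ∈ S z' σ
        · have hxy : l • x + (1 - l) • y ∈ S (l • z + (1 - l) • z') (l * ρ + (1 - l) * σ) := by
            have hx1 : far C (WithLp.toLp 2 x) ≤ ρ := hx.1
            have hx2 : far C ((2 : ℝ) • z - WithLp.toLp 2 x) ≤ ρ := hx.2
            have hy1 : far C (WithLp.toLp 2 y) ≤ σ := hy.1
            have hy2 : far C ((2 : ℝ) • z' - WithLp.toLp 2 y) ≤ σ := hy.2
            have e : (WithLp.toLp 2 (l • x + (1 - l) • y) : E n) =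
                l • (WithLp.toLp 2 x : E n) + (1 - l) • (WithLp.toLp 2 y : E n) := by
              rw [WithLp.toLp_add, WithLp.toLp_smul, WithLp.toLp_smul]
            have e2 : (2 : ℝ) • (l • z + (1 - l) • z') -
                (l • (WithLp.toLp 2 x : E n) + (1 - l) • (WithLp.toLp 2 y : E n)) =
                l • ((2 : ℝ) • z - (WithLp.toLp 2 x : E n)) +
                  (1 - l) • ((2 : ℝ) • z' - (WithLp.toLp 2 y : E n)) := by
              module
            have h1 := (hFAR n C hC hne (WithLp.toLp 2 x) (WithLp.toLp 2 y)).2.2.2 l (1 - l)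
              hl0.le hl1'.le (by ring)
            have h2 := (hFAR n C hC hne ((2 : ℝ) • z - (WithLp.toLp 2 x : E n))
              ((2 : ℝ) • z' - (WithLp.toLp 2 y : E n))).2.2.2 l (1 - l)
              hl0.le hl1'.le (by ring)
            have g1 : far C (l • (WithLp.toLp 2 x : E n) + (1 - l) • (WithLp.toLp 2 y : E n)) ≤
                l * ρ + (1 - l) * σ :=
              h1.trans (add_le_add (mul_le_mul_of_nonneg_left hx1 hl0.le)
                (mul_le_mul_of_nonneg_left hy1 hl1'.le))
            have g2 : far C (l • ((2 : ℝ) • z - (WithLp.toLp 2 x : E n)) +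
                (1 - l) • ((2 : ℝ) • z' - (WithLp.toLp 2 y : E n))) ≤ l * ρ + (1 - l) * σ :=
              h2.trans (add_le_add (mul_le_mul_of_nonneg_left hx2 hl0.le)
                (mul_le_mul_of_nonneg_left hy2 hl1'.le))
            change far C (WithLp.toLp 2 (l • x + (1 - l) • y)) ≤ l * ρ + (1 - l) * σ ∧
              far C ((2 : ℝ) • (l • z + (1 - l) • z') - WithLp.toLp 2 (l • x + (1 - l) • y)) ≤
                l * ρ + (1 - l) * σ
            rw [e]
            refine ⟨g1, ?_⟩
            rw [e2]
            exact g2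
          rw [Set.indicator_of_mem hx, Set.indicator_of_mem hy, Set.indicator_of_mem hxy]
          simp
        · rw [Set.indicator_of_notMem hy, ENNReal.zero_rpow_of_pos hl1', mul_zero]
          exact zero_le
      · rw [Set.indicator_of_notMem hx, ENNReal.zero_rpow_of_pos hl0, zero_mul]
        exact zero_le)
  rw [lintegral_indicator_const (mS _ _), lintegral_indicator_const (mS _ _),
    lintegral_indicator_const (mS _ _), one_mul, one_mul, one_mul, vS, vS, vS] at key
  exact key

theorem LGI_rpow_iSup {ι : Type*} (a : ι → ℝ≥0∞) {p : ℝ} (hp : 0 < p) :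
    (⨆ i, a i) ^ p = ⨆ i, a i ^ p := by
  exact (ENNReal.orderIsoRpow p hp).map_iSup a

theorem LGI (hFAR : FAR_stmt) : LGI_stmt := by
  intro n C ρ σ l hC hne hl0 hl1
  unfold NN
  rw [LGI_rpow_iSup _ hl0, LGI_rpow_iSup _ (by linarith : (0 : ℝ) < 1 - l), ENNReal.iSup_mul]
  refine iSup_le fun z => ?_
  rw [ENNReal.mul_iSup]
  refine iSup_le fun z' => ?_
  exact (LGI_pair hFAR n C z z' ρ σ l hC hne hl0 hl1).trans
    (le_iSup (fun w : E n => volume (AZ C w (l * ρ + (1 - l) * σ) (l * ρ + (1 - l) * σ)))
      (l • z + (1 - l) • z'))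

end Pool.Agent.CI
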